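import Pool.Agent.Q163.SA.Approx

set_option autoImplicit false

open Filter Topology

namespace Pool.Agent.Q163.SA

/-- Matrix units in the Banach algebra. -/
noncomputable def EA (s : S) : Alg := E s

lemma EA_mul (s t : S) : EA s * EA t = P s.2 t.1 • EA (s.1, t.2) := mulL_E s t

lemma norm_EA (s : S) : ‖EA s‖ = 1 := norm_E s

/-- Multiplication as a bilinear map. -/
noncomputable def mulA : Alg →L[ℂ] Alg →L[ℂ] Alg := mulL

lemma mulA_apply (a b : Alg) : mulA a b = a * b := rfl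

section

variable {W : Type*} [NormedAddCommGroup W] [NormedSpace ℂ W]

lemma clm_extA (f g : Alg →L[ℂ] W) (h : ∀ s, f (EA s) = g (EA s)) (a : Alg) : f a = g a :=
  clm_ext f g h a

variable [CompleteSpace W]

/-- `lift` on the algebra. -/
noncomputable def liftA (ψ : S → W) (C : ℝ) (h : ∀ s, ‖ψ s‖ ≤ C) : Alg →L[ℂ] W := lift ψ C h

@[simp] lemma liftA_EA (ψ : S → W) (C : ℝ) (h : ∀ s, ‖ψ s‖ ≤ C) (s : S) :
    liftA ψ C h (EA s) = ψ s := lift_E ψ C h s

lemma norm_liftA_le (ψ : S → W) (C : ℝ) (h : ∀ s, ‖ψ s‖ ≤ C) (hC : 0 ≤ C) :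
    ‖liftA ψ C h‖ ≤ C := norm_lift_le ψ C h hC

end

/-- The approximate unit. -/
noncomputable def eA (N m : ℕ) : Alg := e N m

/-- Restriction to rows. -/
noncomputable def QA (N : ℕ) : Alg →L[ℂ] Alg := Q N

/-- Restriction to columns. -/
noncomputable def Q'A (N : ℕ) : Alg →L[ℂ] Alg := Q' N

lemma QA_tendsto (a : Alg) : Tendsto (fun N => QA N a) atTop (𝓝 a) := Q_tendsto a

lemma Q'A_tendsto (a : Alg) : Tendsto (fun N => Q'A N a) atTop (𝓝 a) := Q'_tendsto a

lemma leftA_tendsto (N : ℕ) (a : Alg) :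
    Tendsto (fun m => eA N m * a) atTop (𝓝 (QA N a)) := left_tendsto N a

lemma rightA_tendsto (N : ℕ) (a : Alg) :
    Tendsto (fun m => a * eA N m) atTop (𝓝 (Q'A N a)) := right_tendsto N a

end Pool.Agent.Q163.SA
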