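import Pool.Agent.Q163.SA.Base

set_option autoImplicit false

open Filter Topology Finset

namespace Pool.Agent.Q163.SA

/-- The block of an index. -/
def blk : I → ℕ
  | .inl n => n
  | .inr q => q.1

/-- The part of the approximate unit in the block `n`. -/
noncomputable def eb (n m : ℕ) : L1 :=
  ((n : ℂ) + 1) • E (.inl n, .inl n) + ∑ k ∈ range m,
    (((k : ℂ) + 1) • E (.inr (n, k), .inr (n, k)) -
      (((n : ℂ) + 1) * ((k : ℂ) + 1)) • E (.inl n, .inr (n, k)))

/-- The approximate unit. -/
noncomputable def e (N m : ℕ) : L1 := ∑ n ∈ range N, eb n m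

lemma ne1 (n : ℕ) : (n : ℂ) + 1 ≠ 0 := by exact_mod_cast n.succ_ne_zero

lemma eb_inl (n m n0 : ℕ) (w : I) :
    mulL (eb n m) (E (.inl n0, w)) = if n = n0 then E (.inl n0, w) else 0 := by
  simp only [eb, map_add, map_smul, map_sum, map_sub, add_apply, smul_apply, _root_.sum_apply, sub_apply,
    mulL_E, P, zero_smul, smul_zero, sub_zero, sum_const_zero, add_zero]
  by_cases h : n = n0
  · subst h
    simp [smul_smul, ne1]
  · simp [h]

lemma eb_inr (n m : ℕ) (q : ℕ × ℕ) (w : I) :
    mulL (eb n m) (E (.inr q, w)) =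
      if n = q.1 then (if q.2 < m then E (.inr q, w) else ((n : ℂ) + 1) • E (.inl n, w)) else 0 := by
  simp only [eb, map_add, map_smul, map_sum, map_sub, add_apply, smul_apply, _root_.sum_apply, sub_apply,
    mulL_E, P]
  by_cases h : n = q.1
  · obtain ⟨q1, q2⟩ := q
    simp only at h
    subst h
    simp only [Prod.mk.injEq, true_and, ite_smul, zero_smul, smul_ite, smul_zero, if_true, one_smul]
    have h1 : ∀ k ∈ range m, ((if k = q2 then ((k : ℂ) + 1) • ((k : ℂ) + 1)⁻¹ • E (.inr (n, k), w)
        else 0) - (if k = q2 then ((((n : ℂ) + 1) * ((k : ℂ) + 1))) • ((k : ℂ) + 1)⁻¹ •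
          E (.inl n, w) else 0)) =
        if k = q2 then (E (.inr (n, q2), w) - ((n : ℂ) + 1) • E (.inl n, w)) else 0 := by
      intro k _
      by_cases hk : k = q2
      · subst hk
        simp only [if_true, smul_smul]
        rw [mul_inv_cancel₀ (ne1 k), mul_assoc, mul_inv_cancel₀ (ne1 k), mul_one, one_smul]
      · simp [hk]
    rw [sum_congr rfl h1, sum_ite_eq' (range m) q2]
    by_cases h2 : q2 < m
    · simp [h2]
    · simp [h2]
  · obtain ⟨q1, q2⟩ := q
    simp only at h
    simp [h]

lemma inl_eb (n m n0 : ℕ) (i : I) :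
    mulL (E (i, .inl n0)) (eb n m) = if n = n0 then E (i, .inl n0) else 0 := by
  simp only [eb, map_add, map_smul, map_sum, map_sub, mulL_E, P]
  by_cases h : n0 = n
  · subst h
    simp only [if_true, smul_smul, one_smul]
    rw [mul_inv_cancel₀ (ne1 n0), one_smul]
    have h1 : ∀ k ∈ range m, (((k : ℂ) + 1) • E (i, .inr (n0, k)) -
        (((n0 : ℂ) + 1) * ((k : ℂ) + 1) * ((n0 : ℂ) + 1)⁻¹) • E (i, .inr (n0, k))) = 0 := by
      intro k _
      rw [mul_comm ((n0 : ℂ) + 1), mul_assoc, mul_inv_cancel₀ (ne1 n0), mul_one, sub_self]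
    rw [sum_congr rfl h1, sum_const_zero, add_zero]
  · have h' : n ≠ n0 := fun h1 => h h1.symm
    simp [h, h']

lemma inr_eb (n m : ℕ) (q : ℕ × ℕ) (i : I) :
    mulL (E (i, .inr q)) (eb n m) =
      if n = q.1 then (if q.2 < m then E (i, .inr q) else 0) else 0 := by
  obtain ⟨q1, q2⟩ := q
  simp only [eb, map_add, map_smul, map_sum, map_sub, mulL_E, P, zero_smul, smul_zero, sub_zero,
    zero_add, Prod.mk.injEq]
  by_cases h : q1 = n
  · subst h
    simp only [true_and, if_true, ite_smul, zero_smul, smul_ite, smul_zero]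
    have h1 : ∀ k ∈ range m, (if q2 = k then ((k : ℂ) + 1) • ((q2 : ℂ) + 1)⁻¹ •
        E (i, .inr (q1, k)) else 0) = if k = q2 then E (i, .inr (q1, q2)) else 0 := by
      intro k _
      by_cases hk : k = q2
      · subst hk
        simp only [if_true, smul_smul]
        rw [mul_inv_cancel₀ (ne1 k), one_smul]
      · have hk' : q2 ≠ k := fun h1 => hk h1.symm
        simp [hk, hk']
    rw [sum_congr rfl h1, sum_ite_eq' (range m) q2]
    simp
  · have h' : n ≠ q1 := fun h1 => h h1.symm
    simp [h, h']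

lemma e_inl (N m n0 : ℕ) (w : I) :
    mulL (e N m) (E (.inl n0, w)) = if n0 < N then E (.inl n0, w) else 0 := by
  simp only [e, map_sum, _root_.sum_apply, eb_inl]
  rw [sum_ite_eq' (range N) n0]
  simp

lemma e_inr (N m : ℕ) (q : ℕ × ℕ) (w : I) :
    mulL (e N m) (E (.inr q, w)) =
      if q.1 < N then (if q.2 < m then E (.inr q, w) else ((q.1 : ℂ) + 1) • E (.inl q.1, w))
        else 0 := by
  simp only [e, map_sum, _root_.sum_apply, eb_inr]
  rw [sum_ite_eq' (range N) q.1]
  simp

lemma inl_e (N m n0 : ℕ) (i : I) :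
    mulL (E (i, .inl n0)) (e N m) = if n0 < N then E (i, .inl n0) else 0 := by
  simp only [e, map_sum, inl_eb]
  rw [sum_ite_eq' (range N) n0]
  simp

lemma inr_e (N m : ℕ) (q : ℕ × ℕ) (i : I) :
    mulL (E (i, .inr q)) (e N m) =
      if q.1 < N then (if q.2 < m then E (i, .inr q) else 0) else 0 := by
  simp only [e, map_sum, inr_eb]
  rw [sum_ite_eq' (range N) q.1]
  simp

/-- Restriction to the rows in the blocks `< N`. -/
noncomputable def Q (N : ℕ) : L1 →L[ℂ] L1 :=
  lift (fun s => if blk s.1 < N then E s else 0) 1 (fun s => by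
    split_ifs
    · rw [norm_E]
    · simp)

/-- Restriction to the columns in the blocks `< N`. -/
noncomputable def Q' (N : ℕ) : L1 →L[ℂ] L1 :=
  lift (fun s => if blk s.2 < N then E s else 0) 1 (fun s => by
    split_ifs
    · rw [norm_E]
    · simp)

lemma Q_tendsto (a : L1) : Tendsto (fun N => Q N a) atTop (𝓝 a) := by
  refine tendsto_clm Q (ContinuousLinearMap.id ℂ L1) 1 (fun N s => ?_) (fun s => ?_) a
  · rw [Q, lift_E]
    split_ifs
    · rw [norm_E]
    · simp
  · refine tendsto_const_nhds.congr' ?_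
    filter_upwards [eventually_gt_atTop (blk s.1)] with N hN
    simp [Q, hN]

lemma Q'_tendsto (a : L1) : Tendsto (fun N => Q' N a) atTop (𝓝 a) := by
  refine tendsto_clm Q' (ContinuousLinearMap.id ℂ L1) 1 (fun N s => ?_) (fun s => ?_) a
  · rw [Q', lift_E]
    split_ifs
    · rw [norm_E]
    · simp
  · refine tendsto_const_nhds.congr' ?_
    filter_upwards [eventually_gt_atTop (blk s.2)] with N hN
    simp [Q', hN]

lemma norm_natCast_add_one (n : ℕ) : ‖(n : ℂ) + 1‖ = (n : ℝ) + 1 := by
  have := Complex.norm_natCast (n + 1)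
  push_cast at this
  exact this

lemma left_tendsto (N : ℕ) (a : L1) :
    Tendsto (fun m => mulL (e N m) a) atTop (𝓝 (Q N a)) := by
  refine tendsto_clm (fun m => mulL (e N m)) (Q N) ((N : ℝ) + 1) (fun m s => ?_) (fun s => ?_) a
  · have hN : (0 : ℝ) ≤ N := Nat.cast_nonneg N
    obtain ⟨n | q, w⟩ := s
    · rw [e_inl]
      split_ifs
      · rw [norm_E]; linarith
      · rw [norm_zero]; linarith
    · rw [e_inr]
      split_ifs with h1 h2
      · rw [norm_E]; linarith
      · rw [norm_smul, norm_E, mul_one, norm_natCast_add_one]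
        have : (q.1 : ℝ) ≤ N := by exact_mod_cast h1.le
        linarith
      · rw [norm_zero]; linarith
  · obtain ⟨n | q, w⟩ := s
    · refine tendsto_const_nhds.congr' (Eventually.of_forall fun m => ?_)
      simp only [e_inl, Q, lift_E, blk]
      rfl
    · refine tendsto_const_nhds.congr' ?_
      filter_upwards [eventually_gt_atTop q.2] with m hm
      simp only [e_inr, Q, lift_E, blk, hm, if_true]
      rfl

lemma right_tendsto (N : ℕ) (a : L1) :
    Tendsto (fun m => mulL a (e N m)) atTop (𝓝 (Q' N a)) := by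
  refine tendsto_clm (fun m => mulL.flip (e N m)) (Q' N) 1 (fun m s => ?_) (fun s => ?_) a
  · obtain ⟨i, n | q⟩ := s
    · rw [ContinuousLinearMap.flip_apply, inl_e]
      split_ifs
      · rw [norm_E]
      · rw [norm_zero]; exact zero_le_one
    · rw [ContinuousLinearMap.flip_apply, inr_e]
      split_ifs with h1 h2
      · rw [norm_E]
      · rw [norm_zero]; exact zero_le_one
      · rw [norm_zero]; exact zero_le_one
  · obtain ⟨i, n | q⟩ := s
    · refine tendsto_const_nhds.congr' (Eventually.of_forall fun m => ?_)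
      simp only [ContinuousLinearMap.flip_apply, inl_e, Q', lift_E, blk]
      rfl
    · refine tendsto_const_nhds.congr' ?_
      filter_upwards [eventually_gt_atTop q.2] with m hm
      simp only [ContinuousLinearMap.flip_apply, inr_e, Q', lift_E, blk, hm, if_true]
      rfl

end Pool.Agent.Q163.SA
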