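import Mathlib

set_option autoImplicit false

open Filter Topology

namespace Pool.Agent.Q163.SA

/-- The index set. -/
abbrev I : Type := ℕ ⊕ (ℕ × ℕ)

/-- The index set of the matrices. -/
abbrev S : Type := I × I

/-- Absolutely summable matrices. -/
abbrev L1 : Type := lp (fun _ : S => ℂ) 1

/-- Matrix units. -/
noncomputable def E (s : S) : L1 := lp.single 1 s (1 : ℂ)

lemma norm_E (s : S) : ‖E s‖ = 1 := by
  unfold E
  rw [lp.norm_single (by norm_num)]
  simp

lemma summable_norm (a : L1) : Summable fun s => ‖a s‖ := by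
  simpa using (lp.memℓp a).summable (by norm_num)

lemma norm_eq (a : L1) : ‖a‖ = ∑' s, ‖a s‖ := by
  rw [lp.norm_eq_tsum_rpow (by norm_num)]
  simp

section lift

variable {W : Type*} [NormedAddCommGroup W] [NormedSpace ℂ W] [CompleteSpace W]

lemma summable_smul (a : L1) (ψ : S → W) (C : ℝ) (h : ∀ s, ‖ψ s‖ ≤ C) :
    Summable fun s => a s • ψ s := by
  refine Summable.of_norm_bounded ((summable_norm a).mul_right C) ?_
  intro s
  rw [norm_smul]
  exact mul_le_mul_of_nonneg_left (h s) (norm_nonneg _)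

/-- The continuous linear map with prescribed bounded values on the matrix units. -/
noncomputable def lift (ψ : S → W) (C : ℝ) (h : ∀ s, ‖ψ s‖ ≤ C) : L1 →L[ℂ] W :=
  LinearMap.mkContinuous
    { toFun := fun a => ∑' s, a s • ψ s
      map_add' := by
        intro a b
        rw [← (summable_smul a ψ C h).tsum_add (summable_smul b ψ C h)]
        refine tsum_congr fun s => ?_
        rw [lp.coeFn_add, Pi.add_apply, add_smul]
      map_smul' := by
        intro c a
        rw [RingHom.id_apply, ← (summable_smul a ψ C h).tsum_const_smul c]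
        refine tsum_congr fun s => ?_
        rw [lp.coeFn_smul, Pi.smul_apply, smul_assoc] } C (by
    intro a
    change ‖∑' s, a s • ψ s‖ ≤ C * ‖a‖
    have h1 : Summable fun s => ‖a s • ψ s‖ := by
      refine Summable.of_nonneg_of_le (fun _ => norm_nonneg _) (fun s => ?_)
        ((summable_norm a).mul_right C)
      rw [norm_smul]
      exact mul_le_mul_of_nonneg_left (h s) (norm_nonneg _)
    refine (norm_tsum_le_tsum_norm h1).trans ?_
    rw [norm_eq, mul_comm, ← tsum_mul_right]
    refine h1.tsum_le_tsum (fun s => ?_) ((summable_norm a).mul_right C)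
    rw [norm_smul]
    exact mul_le_mul_of_nonneg_left (h s) (norm_nonneg _))

lemma lift_apply (ψ : S → W) (C : ℝ) (h : ∀ s, ‖ψ s‖ ≤ C) (a : L1) :
    lift ψ C h a = ∑' s, a s • ψ s := rfl

@[simp] lemma lift_E (ψ : S → W) (C : ℝ) (h : ∀ s, ‖ψ s‖ ≤ C) (s : S) :
    lift ψ C h (E s) = ψ s := by
  rw [lift_apply, tsum_eq_single s]
  · simp [E]
  · intro t ht
    have : (E s : L1) t = 0 := lp.single_apply_ne _ _ _ ht
    rw [this, zero_smul]

lemma norm_lift_le (ψ : S → W) (C : ℝ) (h : ∀ s, ‖ψ s‖ ≤ C) (hC : 0 ≤ C) :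
    ‖lift ψ C h‖ ≤ C :=
  LinearMap.mkContinuous_norm_le _ hC _

end lift

lemma hasSum_E (a : L1) : HasSum (fun s => a s • E s) a := by
  have h := lp.hasSum_single (p := 1) (by norm_num) a
  have h2 : (fun s => lp.single (E := fun _ : S => ℂ) 1 s (a s)) = fun s => a s • E s := by
    funext s
    unfold E
    rw [← lp.single_smul, smul_eq_mul, mul_one]
  rwa [h2] at h

lemma clm_eq {W : Type*} [NormedAddCommGroup W] [NormedSpace ℂ W] (T : L1 →L[ℂ] W) (a : L1) :
    T a = ∑' s, a s • T (E s) := by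
  have h := (hasSum_E a).mapL T
  simp only [map_smul] at h
  exact h.tsum_eq.symm

lemma clm_ext {W : Type*} [NormedAddCommGroup W] [NormedSpace ℂ W] (f g : L1 →L[ℂ] W)
    (h : ∀ s, f (E s) = g (E s)) (a : L1) : f a = g a := by
  rw [clm_eq f, clm_eq g]
  exact tsum_congr fun s => by rw [h s]

/-- Pointwise convergence of a bounded sequence of operators is checked on matrix units. -/
lemma tendsto_clm {W : Type*} [NormedAddCommGroup W] [NormedSpace ℂ W] [CompleteSpace W]
    (T : ℕ → L1 →L[ℂ] W) (T' : L1 →L[ℂ] W) (C : ℝ) (hC : ∀ m s, ‖T m (E s)‖ ≤ C)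
    (h : ∀ s, Tendsto (fun m => T m (E s)) atTop (𝓝 (T' (E s)))) (a : L1) :
    Tendsto (fun m => T m a) atTop (𝓝 (T' a)) := by
  rw [clm_eq T']
  simp only [clm_eq (T _) a]
  refine tendsto_tsum_of_dominated_convergence (bound := fun s => ‖a s‖ * C)
    ((summable_norm a).mul_right C) (fun s => (h s).const_smul (a s)) ?_
  refine Eventually.of_forall fun m s => ?_
  rw [norm_smul]
  exact mul_le_mul_of_nonneg_left (hC m s) (norm_nonneg _)

/-- The sandwich matrix. -/
noncomputable def P : I → I → ℂ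
  | .inl n, .inl n' => if n = n' then ((n : ℂ) + 1)⁻¹ else 0
  | .inl n, .inr q => if n = q.1 then 1 else 0
  | .inr _, .inl _ => 0
  | .inr q, .inr q' => if q = q' then ((q.2 : ℂ) + 1)⁻¹ else 0

lemma norm_inv_le (n : ℕ) : ‖((n : ℂ) + 1)⁻¹‖ ≤ 1 := by
  rw [norm_inv]
  have : ‖(n : ℂ) + 1‖ = (n : ℝ) + 1 := by
    have := Complex.norm_natCast (n + 1)
    push_cast at this
    exact this
  rw [this]
  exact inv_le_one_of_one_le₀ (by linarith [Nat.cast_nonneg (α := ℝ) n])

lemma norm_P (v j : I) : ‖P v j‖ ≤ 1 := by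
  rcases v with n | q <;> rcases j with n' | q' <;> simp only [P]
  · split_ifs
    · exact norm_inv_le n
    · simp
  · split_ifs <;> simp
  · simp
  · split_ifs
    · exact norm_inv_le q.2
    · simp

/-- The product `a P b`. -/
noncomputable def mulL : L1 →L[ℂ] L1 →L[ℂ] L1 :=
  lift (fun s => lift (fun t => P s.2 t.1 • E (s.1, t.2)) 1 (fun t => by
    rw [norm_smul, norm_E, mul_one]; exact norm_P _ _)) 1
    (fun _ => norm_lift_le _ _ _ zero_le_one)

lemma mulL_E (s t : S) : mulL (E s) (E t) = P s.2 t.1 • E (s.1, t.2) := by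
  simp [mulL]

lemma norm_mulL_le (a b : L1) : ‖mulL a b‖ ≤ ‖a‖ * ‖b‖ := by
  have h1 : ‖mulL‖ ≤ 1 := norm_lift_le _ _ _ zero_le_one
  calc ‖mulL a b‖ ≤ ‖mulL a‖ * ‖b‖ := (mulL a).le_opNorm b
    _ ≤ (‖mulL‖ * ‖a‖) * ‖b‖ := by gcongr; exact mulL.le_opNorm a
    _ ≤ (1 * ‖a‖) * ‖b‖ := by gcongr
    _ = ‖a‖ * ‖b‖ := by rw [one_mul]

lemma mulL_assoc (a b c : L1) : mulL (mulL a b) c = mulL a (mulL b c) := by
  refine clm_ext ((mulL.flip c).comp (mulL.flip b)) (mulL.flip (mulL b c)) (fun s => ?_) a
  refine clm_ext ((mulL.flip c).comp (mulL (E s))) ((mulL (E s)).comp (mulL.flip c))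
    (fun t => ?_) b
  refine clm_ext (mulL (mulL (E s) (E t))) ((mulL (E s)).comp (mulL (E t))) (fun u => ?_) c
  simp only [ContinuousLinearMap.comp_apply, mulL_E, map_smul, smul_apply]
  rw [smul_comm]

lemma mulL_add_left (a b c : L1) : mulL (a + b) c = mulL a c + mulL b c := by
  rw [map_add]; rfl

lemma mulL_zero_left (a : L1) : mulL 0 a = 0 := by
  rw [map_zero]; rfl

lemma mulL_smul_left (c : ℂ) (a b : L1) : mulL (c • a) b = c • mulL a b := by
  rw [map_smul]; rfl

lemma mulL_smul_right (c : ℂ) (a b : L1) : mulL a (c • b) = c • mulL a b := by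
  rw [map_smul]

/-- The Banach algebra: absolutely summable matrices with the product `a P b`. -/
def Alg : Type := L1

noncomputable instance : NonUnitalNormedRing Alg :=
  { (inferInstance : NormedAddCommGroup L1) with
    mul := fun a b => mulL a b
    left_distrib := fun a b c => (mulL a).map_add b c
    right_distrib := mulL_add_left
    zero_mul := mulL_zero_left
    mul_zero := fun a => (mulL a).map_zero
    mul_assoc := mulL_assoc
    norm_mul_le := norm_mulL_le }

noncomputable instance : NormedSpace ℂ Alg := inferInstanceAs (NormedSpace ℂ L1)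

instance : CompleteSpace Alg := inferInstanceAs (CompleteSpace L1)

instance : IsScalarTower ℂ Alg Alg where
  smul_assoc c a b := mulL_smul_left c a b

instance : SMulCommClass ℂ Alg Alg where
  smul_comm c a b := (mulL_smul_right c a b).symm

end Pool.Agent.Q163.SA
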